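import Pool.Agent.R722.MK.Final2
import Pool.Agent.R722.MK.Fac
import Pool.Agent.R722.MK.Count
import Pool.Agent.R722.MK.Nil
import Pool.Agent.R722.MK.Orbs
import Pool.Agent.R722.MK.Res
import Pool.Agent.R722.MK.Inj
import Pool.Agent.R722.MK.Surj
import Pool.Agent.R722.MK.MV
import Pool.Agent.R722.MK.Eps
import Pool.Agent.R722.MK.Proj
import Pool.Agent.R722.MK.Filt
import Pool.Agent.R722.MK.PdExt
import Pool.Agent.R722.MK.PdMap
import Pool.Agent.R722.MK.Gl
import Pool.Agent.R722.MK.Zero
import Pool.Agent.R722.MK.Span

/-!
# Global dimension of rational incomplete Mackey functors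

For every finite group `G` the global dimension of the category of rational `O`-Mackey functors
is antitone in the transfer system `O`, and it is `0` exactly for the complete transfer system.
-/

set_option autoImplicit false

namespace Pool.Agent.Results.MP_093cae_al.GlobalDimension

open Pool.Agent.R722.MK

theorem result (G : Type) [Group G] [Finite G] :
    (∀ O O' : TransferSystem G, (∀ K H, O.rel K H → O'.rel K H) →
      gldim (RMackey O') ≤ gldim (RMackey O)) ∧
    (∀ O : TransferSystem G, gldim (RMackey O) = 0 ↔ ∀ K H : Subgroup G, K ≤ H → O.rel K H) :=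
  final2 fac count nil_ orbs res inj surj mv eps proj filt pdExt pdMap gl zero_ span_ G

end Pool.Agent.Results.MP_093cae_al.GlobalDimension
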